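import Pool.Agent.H88.WR.Targets
import Pool.Agent.H85.JNBasic

/-! Row BP of `wmr_modules`: the theorem of Bessaga and Pelczynski. -/

set_option autoImplicit false

open Filter Topology Set Pool.Agent.H85.WMP Pool.Agent.H88.WR

namespace Pool.Agent.H79.WR

section basic

variable {𝕜 : Type} [RCLike 𝕜] {F : Type} [NormedAddCommGroup F] [NormedSpace 𝕜 F]

/-- weakly unconditionally Cauchy -/
theorem wuc (y : ℕ → F) (K : ℝ) (h : ∀ (s : Finset ℕ) (a : ℕ → 𝕜), (∀ i ∈ s, ‖a i‖ ≤ 1) →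
    ‖∑ i ∈ s, a i • y i‖ ≤ K) (f : StrongDual 𝕜 F) : Tendsto (fun i => f (y i)) atTop (𝓝 0) := by
  have h1 : ∀ s : Finset ℕ, ∑ i ∈ s, ‖f (y i)‖ ≤ ‖f‖ * K := by
    intro s
    obtain ⟨a, ha⟩ : ∃ a : ℕ → 𝕜, ∀ i, ‖a i‖ ≤ 1 ∧ a i * f (y i) = (‖f (y i)‖ : 𝕜) := by
      refine ⟨fun i => if f (y i) = 0 then 0 else
        (starRingEnd 𝕜) (f (y i)) / (‖f (y i)‖ : 𝕜), fun i => ?_⟩
      by_cases h0 : f (y i) = 0
      · simp [h0]
      · have h2 : (‖f (y i)‖ : 𝕜) ≠ 0 := by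
          rw [Ne, RCLike.ofReal_eq_zero, norm_eq_zero]
          exact h0
        simp only [if_neg h0]
        constructor
        · rw [norm_div, RCLike.norm_conj, RCLike.norm_ofReal, abs_norm,
            div_self (norm_ne_zero_iff.2 h0)]
        · rw [div_mul_eq_mul_div, RCLike.conj_mul, pow_two, mul_div_assoc, div_self h2, mul_one]
    have h2 := h s a fun i _ => (ha i).1
    have h3 : f (∑ i ∈ s, a i • y i) = ((∑ i ∈ s, ‖f (y i)‖ : ℝ) : 𝕜) := by
      rw [map_sum]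
      push_cast
      refine Finset.sum_congr rfl fun i _ => ?_
      rw [map_smul, smul_eq_mul, (ha i).2]
    have h4 := f.le_opNorm (∑ i ∈ s, a i • y i)
    rw [h3, RCLike.norm_ofReal, abs_of_nonneg (Finset.sum_nonneg fun i _ => norm_nonneg _)] at h4
    exact h4.trans (mul_le_mul_of_nonneg_left h2 (norm_nonneg f))
  have h2 : Summable fun i => ‖f (y i)‖ :=
    summable_of_sum_le (fun i => norm_nonneg _) h1
  have h3 := h2.tendsto_atTop_zero
  exact tendsto_zero_iff_norm_tendsto_zero.2 h3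

/-- the pairs which are chosen -/
structure Rel (f : ℕ → StrongDual 𝕜 F) (g : StrongDual 𝕜 F) (y : ℕ → F) (δ : ℝ)
    (a b : ℕ × ℕ) : Prop where
  q : a.1 < b.1
  n : a.2 < b.2
  A : ‖(f b.2 - g) (y a.2)‖ ≤ δ * (1 / 2) ^ (b.1 + 4)
  B : ‖(f a.2 - g) (y b.2)‖ ≤ δ * (1 / 2) ^ (b.1 + 4)

theorem select (f : ℕ → StrongDual 𝕜 F) (g : StrongDual 𝕜 F) (y : ℕ → F) (δ K : ℝ)
    (hδ : 0 < δ) (h : ∀ (s : Finset ℕ) (a : ℕ → 𝕜), (∀ i ∈ s, ‖a i‖ ≤ 1) →
      ‖∑ i ∈ s, a i • y i‖ ≤ K)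
    (U : Ultrafilter ℕ) (hU : (U : Filter ℕ) ≤ atTop)
    (hg : ∀ x, Tendsto (fun i => f i x) U (𝓝 (g x))) :
    ∃ N : ℕ → ℕ, StrictMono N ∧ (∀ q, ‖g (y (N q))‖ ≤ δ / 8) ∧
      ∀ i q, i ≠ q → ‖(f (N q) - g) (y (N i))‖ ≤ δ * (1 / 2) ^ (i + 4) := by
  classical
  obtain ⟨e, he1, he2⟩ := exists_seq_of_forall_finset_exists
    (fun b : ℕ × ℕ => ‖g (y b.2)‖ ≤ δ / 8) (Rel f g y δ) (by
      intro s _
      obtain ⟨q', hq'⟩ : ∃ q' : ℕ, ∀ a ∈ s, a.1 < q' := by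
        refine ⟨s.sup Prod.fst + 1, fun a ha => Nat.lt_succ_of_le ?_⟩
        exact Finset.le_sup (f := Prod.fst) ha
      have hε : 0 < δ * (1 / 2) ^ (q' + 4) := by positivity
      have c1 : ∀ᶠ n in (U : Filter ℕ), ‖g (y n)‖ ≤ δ / 8 := by
        refine hU ?_
        have h1 := (wuc y K h g).norm
        rw [norm_zero] at h1
        exact h1.eventually (ge_mem_nhds (by positivity))
      have c2 : ∀ᶠ n in (U : Filter ℕ), ∀ a ∈ s, Rel f g y δ a (q', n) := by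
        rw [Filter.eventually_all_finset]
        intro a ha
        have d1 : ∀ᶠ n in (U : Filter ℕ), a.2 < n := hU (eventually_gt_atTop a.2)
        have d2 : ∀ᶠ n in (U : Filter ℕ), ‖(f n - g) (y a.2)‖ ≤ δ * (1 / 2) ^ (q' + 4) := by
          have h1 := ((hg (y a.2)).sub_const (g (y a.2))).norm
          rw [sub_self, norm_zero] at h1
          exact h1.eventually (ge_mem_nhds hε)
        have d3 : ∀ᶠ n in (U : Filter ℕ), ‖(f a.2 - g) (y n)‖ ≤ δ * (1 / 2) ^ (q' + 4) := by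
          refine hU ?_
          have h1 := (wuc y K h (f a.2 - g)).norm
          rw [norm_zero] at h1
          exact h1.eventually (ge_mem_nhds hε)
        filter_upwards [d1, d2, d3] with n e1 e2 e3
        exact ⟨hq' a ha, e1, e2, e3⟩
      obtain ⟨n, hn1, hn2⟩ := (c1.and c2).exists
      exact ⟨(q', n), hn1, hn2⟩)
  have hle : ∀ k, k ≤ (e k).1 := by
    have hm : StrictMono fun k => (e k).1 := fun a b hab => (he2 a b hab).q
    exact fun k => hm.le_apply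
  have hpow : ∀ a b : ℕ, a ≤ b → δ * (1 / 2 : ℝ) ^ (b + 4) ≤ δ * (1 / 2) ^ (a + 4) := by
    intro a b hab
    refine mul_le_mul_of_nonneg_left ?_ hδ.le
    exact pow_le_pow_of_le_one (by norm_num) (by norm_num) (by omega)
  refine ⟨fun k => (e k).2, fun a b hab => (he2 a b hab).n, he1, fun i q hiq => ?_⟩
  rcases lt_or_gt_of_ne hiq with h1 | h1
  · exact (he2 i q h1).A.trans (hpow _ _ ((h1.le).trans (hle q)))
  · exact (he2 q i h1).B.trans (hpow _ _ (hle i))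

end basic

theorem pf_BP (𝕜 : Type) [RCLike 𝕜] : T_BP 𝕜 := by
  intro F _ _ y δ K hδ hy h
  classical
  have hf : ∀ n, ∃ f : StrongDual 𝕜 F, ‖f‖ ≤ 1 ∧ f (y n) = (‖y n‖ : 𝕜) :=
    fun n => exists_dual_vector'' 𝕜 (y n)
  choose f hf1 hf2 using hf
  have hU : ((hyperfilter ℕ : Ultrafilter ℕ) : Filter ℕ) ≤ atTop := by
    rw [← Nat.cofinite_eq_atTop]
    exact hyperfilter_le_cofinite
  obtain ⟨g, hg⟩ := Pool.Agent.H85.JN.exists_ultra_limit (hyperfilter ℕ) f 1 hf1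
  obtain ⟨N, hN, hN1, hN2⟩ := select f g y δ K hδ h (hyperfilter ℕ) hU hg
  have hg0 := norm_nonneg g
  refine ⟨fun i => y (N i), 3 / 4 * δ / (1 + ‖g‖), K, by positivity, fun s a M hM ha => ⟨?_, ?_⟩⟩
  · -- the upper bound
    have h1 : ∀ b : ℕ → 𝕜, (∀ i ∈ s, ‖b i‖ ≤ 1) → ‖∑ i ∈ s, b i • y (N i)‖ ≤ K := by
      intro b hb
      have h2 := h (s.image N) (Function.extend N b 0) (by
        intro j hj
        obtain ⟨i, hi, rfl⟩ := Finset.mem_image.1 hj
        rw [hN.injective.extend_apply]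
        exact hb i hi)
      rw [Finset.sum_image (fun i _ j _ hij => hN.injective hij)] at h2
      simpa only [hN.injective.extend_apply] using h2
    rcases eq_or_lt_of_le hM with h0 | h0
    · have h2 : ∑ i ∈ s, a i • y (N i) = 0 := by
        refine Finset.sum_eq_zero fun i hi => ?_
        have h3 := ha i hi
        rw [← h0] at h3
        rw [norm_eq_zero.1 (le_antisymm h3 (norm_nonneg _)), zero_smul]
      rw [h2, norm_zero, ← h0, mul_zero]
    · have h2 := h1 (fun i => (M : 𝕜)⁻¹ * a i) (by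
        intro i hi
        rw [norm_mul, norm_inv, RCLike.norm_ofReal, abs_of_pos h0, inv_mul_le_iff₀ h0, mul_one]
        exact ha i hi)
      have h3 : ∑ i ∈ s, a i • y (N i) = (M : 𝕜) • ∑ i ∈ s, ((M : 𝕜)⁻¹ * a i) • y (N i) := by
        rw [Finset.smul_sum]
        refine Finset.sum_congr rfl fun i _ => ?_
        rw [smul_smul, ← mul_assoc, mul_inv_cancel₀, one_mul]
        rw [Ne, RCLike.ofReal_eq_zero]
        exact h0.ne'
      rw [h3, norm_smul, RCLike.norm_ofReal, abs_of_pos h0, mul_comm K]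
      exact mul_le_mul_of_nonneg_left h2 h0.le
  · -- the lower bound
    intro i hi
    obtain ⟨q, hq, hqmax⟩ := s.exists_max_image (fun i => ‖a i‖) ⟨i, hi⟩
    obtain ⟨Φ, hΦ⟩ : ∃ Φ : StrongDual 𝕜 F, Φ = f (N q) - g := ⟨_, rfl⟩
    have hΦn : ‖Φ‖ ≤ 1 + ‖g‖ := by
      rw [hΦ]
      exact (norm_sub_le _ _).trans (add_le_add_left (hf1 _) _)
    have hΦq : 7 / 8 * δ ≤ ‖Φ (y (N q))‖ := by
      have h1 : Φ (y (N q)) = (‖y (N q)‖ : 𝕜) - g (y (N q)) := by
        rw [hΦ, sub_apply, hf2]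
      rw [h1]
      have h2 := norm_sub_norm_le (‖y (N q)‖ : 𝕜) (g (y (N q)))
      rw [RCLike.norm_ofReal, abs_norm] at h2
      have h3 := hN1 q
      have h4 := hy (N q)
      linarith
    have hsum : ∑ j ∈ s.erase q, ‖a j‖ * ‖Φ (y (N j))‖ ≤ ‖a q‖ * (δ / 8) := by
      have h1 : ∀ j ∈ s.erase q, ‖a j‖ * ‖Φ (y (N j))‖ ≤ ‖a q‖ * (δ / 16) * (1 / 2) ^ j := by
        intro j hj
        obtain ⟨hj1, hj2⟩ := Finset.mem_erase.1 hj
        have h2 : ‖Φ (y (N j))‖ ≤ δ * (1 / 2) ^ (j + 4) := by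
          rw [hΦ]
          exact hN2 j q hj1
        have h3 : δ * (1 / 2 : ℝ) ^ (j + 4) = δ / 16 * (1 / 2) ^ j := by
          rw [pow_add]
          ring
        rw [h3] at h2
        calc ‖a j‖ * ‖Φ (y (N j))‖ ≤ ‖a q‖ * (δ / 16 * (1 / 2) ^ j) :=
              mul_le_mul (hqmax j hj2) h2 (norm_nonneg _) (norm_nonneg _)
          _ = _ := by ring
      refine (Finset.sum_le_sum h1).trans ?_
      rw [← Finset.mul_sum]
      have h2 : ∑ j ∈ s.erase q, (1 / 2 : ℝ) ^ j ≤ 2 := by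
        have h3 := Summable.sum_le_tsum (s.erase q) (fun j _ => by positivity)
          (summable_geometric_two)
        rwa [tsum_geometric_two] at h3
      calc ‖a q‖ * (δ / 16) * ∑ j ∈ s.erase q, (1 / 2 : ℝ) ^ j ≤ ‖a q‖ * (δ / 16) * 2 :=
            mul_le_mul_of_nonneg_left h2 (by positivity)
        _ = _ := by ring
    have hlow : ‖a q‖ * (3 / 4 * δ) ≤ ‖Φ (∑ j ∈ s, a j • y (N j))‖ := by
      have h1 : Φ (∑ j ∈ s, a j • y (N j)) = a q * Φ (y (N q)) +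
          ∑ j ∈ s.erase q, a j * Φ (y (N j)) := by
        rw [map_sum, ← Finset.add_sum_erase s _ hq]
        simp only [map_smul, smul_eq_mul]
      rw [h1]
      have h2 : ‖∑ j ∈ s.erase q, a j * Φ (y (N j))‖ ≤ ‖a q‖ * (δ / 8) := by
        refine (norm_sum_le _ _).trans ?_
        simpa only [norm_mul] using hsum
      have h3 : ‖a q‖ * (7 / 8 * δ) ≤ ‖a q * Φ (y (N q))‖ := by
        rw [norm_mul]
        exact mul_le_mul_of_nonneg_left hΦq (norm_nonneg _)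
      have h4 := norm_sub_norm_le (a q * Φ (y (N q))) (-(∑ j ∈ s.erase q, a j * Φ (y (N j))))
      rw [norm_neg, sub_neg_eq_add] at h4
      linarith
    have h1 := Φ.le_opNorm (∑ j ∈ s, a j • y (N j))
    have h2 : ‖Φ‖ * ‖∑ j ∈ s, a j • y (N j)‖ ≤ (1 + ‖g‖) * ‖∑ j ∈ s, a j • y (N j)‖ :=
      mul_le_mul_of_nonneg_right hΦn (norm_nonneg _)
    rw [div_mul_eq_mul_div, div_le_iff₀ (by positivity)]
    have h3 : 3 / 4 * δ * ‖a i‖ ≤ 3 / 4 * δ * ‖a q‖ :=
      mul_le_mul_of_nonneg_left (hqmax i hi) (by positivity)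
    linarith

end Pool.Agent.H79.WR
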