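import Pool.Agent.H88.WR.Targets

/-! Row RNE of `wmr_modules`: an embedding becomes isometric for a new norm on the range. -/

set_option autoImplicit false

open Filter Topology Set Pool.Agent.H85.WMP Pool.Agent.H88.WR

namespace Pool.Agent.H79.WR

/-- a synonym -/
def Ren (F : Type) : Type := F

instance instACG {F : Type} [AddCommGroup F] : AddCommGroup (Ren F) :=
  inferInstanceAs (AddCommGroup F)

instance instMod {𝕜 F : Type} [RCLike 𝕜] [AddCommGroup F] [Module 𝕜 F] : Module 𝕜 (Ren F) :=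
  inferInstanceAs (Module 𝕜 F)

/-- renorming -/
theorem renorm (𝕜 : Type) [RCLike 𝕜] (F : Type) [NormedAddCommGroup F] [NormedSpace 𝕜 F]
    (p : F → ℝ) (hadd : ∀ x y, p (x + y) ≤ p x + p y) (hsmul : ∀ (c : 𝕜) x, p (c • x) = ‖c‖ * p x)
    (a b : ℝ) (ha : 0 < a) (h1 : ∀ x, a * ‖x‖ ≤ p x) (h2 : ∀ x, p x ≤ b * ‖x‖) :
    ∃ (F' : Type) (_ : NormedAddCommGroup F') (_ : NormedSpace 𝕜 F') (e : F' ≃L[𝕜] F),
      ∀ y : F', ‖y‖ = p (e y) := by
  have hz : ∀ x : F, p x = 0 → x = 0 := by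
    intro x h3
    have h4 := h1 x
    rw [h3] at h4
    have h5 : ‖x‖ ≤ 0 := by
      by_contra h6
      have := mul_pos ha (not_le.1 h6)
      linarith
    exact norm_le_zero_iff.1 h5
  let _ : Norm (Ren F) := ⟨p⟩
  have core : NormedSpace.Core 𝕜 (Ren F) :=
    { norm_nonneg := fun x => (mul_nonneg ha.le (norm_nonneg (E := F) x)).trans (h1 x)
      norm_smul := fun c x => hsmul c x
      norm_triangle := fun x y => hadd x y
      norm_eq_zero_iff := fun x => by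
        constructor
        · exact fun h => hz x h
        · rintro rfl
          have h3 := hsmul 0 (0 : F)
          rw [zero_smul, norm_zero, zero_mul] at h3
          exact h3 }
  let i1 : NormedAddCommGroup (Ren F) := NormedAddCommGroup.ofCore core
  let i2 : NormedSpace 𝕜 (Ren F) := NormedSpace.ofCore core
  refine ⟨Ren F, i1, i2, LinearEquiv.toContinuousLinearEquivOfBounds
    (LinearEquiv.refl 𝕜 F : Ren F ≃ₗ[𝕜] F) a⁻¹ b (fun x => ?_) (fun x => ?_), fun y => rfl⟩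
  · rw [le_inv_mul_iff₀ ha]
    exact h1 x
  · exact h2 x

theorem pf_RNE (𝕜 : Type) [RCLike 𝕜] : T_RNE 𝕜 := by
  intro G _ _ F _ _ S c hc hS
  obtain ⟨C, hC⟩ : ∃ C : ℝ, C = c⁻¹ := ⟨_, rfl⟩
  have hC0 : 0 < C := by
    rw [hC]
    positivity
  obtain ⟨p, hp⟩ : ∃ p : F → ℝ, p = fun y => ⨅ x : G, (‖x‖ + C * ‖y - S x‖) := ⟨_, rfl⟩
  have hbdd : ∀ y : F, BddBelow (Set.range fun x : G => ‖x‖ + C * ‖y - S x‖) := fun y =>
    ⟨0, by rintro _ ⟨x, rfl⟩; positivity⟩
  have hle : ∀ y x, p y ≤ ‖x‖ + C * ‖y - S x‖ := by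
    intro y x
    rw [hp]
    exact ciInf_le (hbdd y) x
  have hge : ∀ y r, (∀ x : G, r ≤ ‖x‖ + C * ‖y - S x‖) → r ≤ p y := by
    intro y r h
    rw [hp]
    exact le_ciInf h
  have hp0 : ∀ y, 0 ≤ p y := fun y => hge y 0 fun x => by positivity
  have hadd : ∀ y z, p (y + z) ≤ p y + p z := by
    intro y z
    have h1 : ∀ x₁ x₂ : G, p (y + z) ≤ (‖x₁‖ + C * ‖y - S x₁‖) + (‖x₂‖ + C * ‖z - S x₂‖) := by
      intro x₁ x₂
      refine (hle _ (x₁ + x₂)).trans ?_
      have h2 : y + z - S (x₁ + x₂) = (y - S x₁) + (z - S x₂) := by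
        rw [map_add]
        abel
      rw [h2]
      have h3 := norm_add_le x₁ x₂
      have h4 := mul_le_mul_of_nonneg_left (norm_add_le (y - S x₁) (z - S x₂)) hC0.le
      linarith
    have h2 : ∀ x₂ : G, p (y + z) - (‖x₂‖ + C * ‖z - S x₂‖) ≤ p y := fun x₂ =>
      hge y _ fun x₁ => by linarith [h1 x₁ x₂]
    have h3 : p (y + z) - p y ≤ p z := hge z _ fun x₂ => by linarith [h2 x₂]
    linarith
  have hsub : ∀ (a : 𝕜) y, a ≠ 0 → p (a • y) ≤ ‖a‖ * p y := by
    intro a y ha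
    have han : 0 < ‖a‖ := norm_pos_iff.2 ha
    have h1 : p (a • y) / ‖a‖ ≤ p y := by
      refine hge y _ fun x => ?_
      rw [div_le_iff₀ han]
      refine (hle _ (a • x)).trans (le_of_eq ?_)
      rw [map_smul, ← smul_sub, norm_smul, norm_smul]
      ring
    rw [div_le_iff₀ han] at h1
    linarith
  have hzero : p 0 = 0 := by
    refine le_antisymm ?_ (hp0 0)
    refine (hle 0 0).trans (le_of_eq ?_)
    rw [map_zero, sub_zero, norm_zero, norm_zero]
    ring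
  have hsmul : ∀ (a : 𝕜) y, p (a • y) = ‖a‖ * p y := by
    intro a y
    by_cases ha : a = 0
    · rw [ha, zero_smul, hzero, norm_zero, zero_mul]
    · refine le_antisymm (hsub a y ha) ?_
      have h1 := hsub a⁻¹ (a • y) (inv_ne_zero ha)
      rw [smul_smul, inv_mul_cancel₀ ha, one_smul, norm_inv,
        le_inv_mul_iff₀ (norm_pos_iff.2 ha)] at h1
      exact h1
  have hSx : ∀ x, p (S x) = ‖x‖ := by
    intro x
    refine le_antisymm ?_ (hge _ _ fun x' => ?_)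
    · refine (hle _ x).trans (le_of_eq ?_)
      rw [sub_self, norm_zero, mul_zero, add_zero]
    · have h1 := hS (x - x')
      rw [map_sub] at h1
      have h2 : ‖x - x'‖ ≤ C * ‖S x - S x'‖ := by
        rw [hC, le_inv_mul_iff₀ hc]
        exact h1
      have h3 : ‖x‖ ≤ ‖x'‖ + ‖x - x'‖ := by
        have := norm_add_le x' (x - x')
        rwa [add_sub_cancel] at this
      linarith
  have hL : 0 < ‖S‖ + 1 := by positivity
  have hlow : ∀ y, min (‖S‖ + 1)⁻¹ C * ‖y‖ ≤ p y := by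
    refine fun y => hge y _ fun x => ?_
    have h1 : ‖y‖ ≤ ‖S x‖ + ‖y - S x‖ := by
      have := norm_add_le (S x) (y - S x)
      rwa [add_sub_cancel] at this
    have h2 : (‖S‖ + 1)⁻¹ * ‖S x‖ ≤ ‖x‖ := by
      rw [inv_mul_le_iff₀ hL]
      refine (S.le_opNorm x).trans ?_
      exact mul_le_mul_of_nonneg_right (by linarith) (norm_nonneg x)
    have h3 : 0 ≤ min (‖S‖ + 1)⁻¹ C := (lt_min (by positivity) hC0).le
    calc min (‖S‖ + 1)⁻¹ C * ‖y‖ ≤ min (‖S‖ + 1)⁻¹ C * (‖S x‖ + ‖y - S x‖) :=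
          mul_le_mul_of_nonneg_left h1 h3
      _ = min (‖S‖ + 1)⁻¹ C * ‖S x‖ + min (‖S‖ + 1)⁻¹ C * ‖y - S x‖ := mul_add _ _ _
      _ ≤ (‖S‖ + 1)⁻¹ * ‖S x‖ + C * ‖y - S x‖ := by
          gcongr
          · exact min_le_left _ _
          · exact min_le_right _ _
      _ ≤ _ := by linarith
  have hupp : ∀ y, p y ≤ C * ‖y‖ := by
    intro y
    refine (hle y 0).trans (le_of_eq ?_)
    rw [map_zero, sub_zero, norm_zero, zero_add]
  obtain ⟨F', i1, i2, e, he⟩ := renorm 𝕜 F p hadd hsmul (min (‖S‖ + 1)⁻¹ C) C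
    (lt_min (by positivity) hC0) hlow hupp
  refine ⟨F', i1, i2, e, ⟨⟨e.symm.toLinearEquiv.toLinearMap ∘ₗ (S : G →ₗ[𝕜] F),
    fun x => ?_⟩⟩⟩
  show ‖e.symm (S x)‖ = ‖x‖
  rw [he, ContinuousLinearEquiv.apply_symm_apply, hSx]

end Pool.Agent.H79.WR
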